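import Pool.Agent.Run7.h520.WO.I

/-! Piece FINT: finitely many types of tuples. -/

set_option autoImplicit false

namespace Run7.h104.WO
open Run7.h520.WO

theorem fint_code {M : Type} [LinearOrder M] (E : M → M → Prop) (d : M → M → M)
    {α K : Type} [Finite K] (code : (α → M) → K)
    (h : ∀ s t, code s = code t → Sim E d s t) :
    ∃ F : Set (α → M), F.Finite ∧ ∀ t, ∃ s ∈ F, Sim E d s t := by
  classical
  have hc : ∀ k : Set.range code, ∃ s, code s = k.1 := fun k => k.2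
  choose g hg using hc
  refine ⟨Set.range g, Set.finite_range g, fun t => ?_⟩
  refine ⟨g ⟨code t, t, rfl⟩, ⟨_, rfl⟩, h _ _ ?_⟩
  rw [hg]

theorem fint : S_CLOSE → S_FINT := by
  intro hC M _ E d hA α _
  classical
  rcases isEmpty_or_nonempty α with hα | hα
  · refine ⟨Set.univ, Set.toFinite _, fun t => ⟨t, trivial, fun _ _ => False, ⟨?_, ?_, ?_, ?_⟩,
      fun i => hα.elim i⟩⟩
    · simp
    · intro _ _ _ _ h; exact h.elim
    · intro _ _ _ _ h; exact h.elim
    · intro _ _ _ _ h; exact h.elim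
  have : Fintype α := Fintype.ofFinite α
  obtain ⟨b, hb⟩ := hC M E d hA (Fintype.card α)
  have key : ∀ t : α → M, ∃ e : Fin (b + 1) → M, (∀ a, ∃ i, e i = t a) ∧
      ∀ i j, ∃ k, d (e i) (e j) = e k := by
    intro t
    obtain ⟨B, hB1, hB2, hB3⟩ := hb (Finset.univ.image t) Finset.card_image_le
    have a0 : α := Classical.choice hα
    have h0 : t a0 ∈ B := hB1 (Finset.mem_image_of_mem _ (Finset.mem_univ _))
    let e : Fin (b + 1) → M := fun i =>
      if h : (i : ℕ) < B.card then (B.equivFin.symm ⟨i, h⟩ : B).1 else t a0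
    have e1 : ∀ i, e i ∈ B := by
      intro i
      by_cases h : (i : ℕ) < B.card
      · simp only [e, h, dite_true]; exact (B.equivFin.symm ⟨i, h⟩).2
      · simp only [e, h, dite_false]; exact h0
    have e2 : ∀ x ∈ B, ∃ i, e i = x := by
      intro x hx
      have hlt := (B.equivFin ⟨x, hx⟩).2
      refine ⟨⟨(B.equivFin ⟨x, hx⟩ : Fin _).1, by omega⟩, ?_⟩
      simp only [e, hlt, dite_true, Fin.eta, Equiv.symm_apply_apply]
    refine ⟨e, fun a => e2 _ (hB1 (Finset.mem_image_of_mem _ (Finset.mem_univ _))), fun i j => ?_⟩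
    obtain ⟨k, hk⟩ := e2 _ (hB3 _ (e1 i) _ (e1 j))
    exact ⟨k, hk.symm⟩
  choose e he1 he2 using key
  refine fint_code E d (K := (Fin (b + 1) → Fin (b + 1) → Prop) ×
    (Fin (b + 1) → Fin (b + 1) → Prop) × (Fin (b + 1) → Fin (b + 1) → Fin (b + 1) → Prop) ×
    (α → Fin (b + 1) → Prop))
    (fun t => (fun i j => e t i < e t j, fun i j => E (e t i) (e t j),
      fun i j k => d (e t i) (e t j) = e t k, fun a i => e t i = t a)) ?_
  intro s t hst
  simp only [Prod.mk.injEq] at hst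
  obtain ⟨h1, h2, h3, h4⟩ := hst
  have g1 : ∀ i j, e s i < e s j ↔ e t i < e t j := fun i j => by
    have := congrFun (congrFun h1 i) j
    exact this ▸ Iff.rfl
  have g2 : ∀ i j, E (e s i) (e s j) ↔ E (e t i) (e t j) := fun i j => by
    have := congrFun (congrFun h2 i) j
    exact this ▸ Iff.rfl
  have g3 : ∀ i j k, d (e s i) (e s j) = e s k ↔ d (e t i) (e t j) = e t k := fun i j k => by
    have := congrFun (congrFun (congrFun h3 i) j) k
    exact Iff.of_eq this
  have g4 : ∀ a i, e s i = s a ↔ e t i = t a := fun a i => by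
    have := congrFun (congrFun h4 a) i
    exact Iff.of_eq this
  refine ⟨fun x x' => ∃ i, e s i = x ∧ e t i = x', ⟨?_, ?_, ?_, ?_⟩, ?_⟩
  · refine (Set.finite_range (fun i : Fin (b + 1) => (e s i, e t i))).subset ?_
    rintro ⟨x, x'⟩ ⟨i, h1, h2⟩
    exact ⟨i, Prod.ext h1 h2⟩
  · rintro _ _ _ _ ⟨i, rfl, rfl⟩ ⟨j, rfl, rfl⟩
    exact g1 i j
  · rintro _ _ _ _ ⟨i, rfl, rfl⟩ ⟨j, rfl, rfl⟩
    exact g2 i j
  · rintro _ _ _ _ ⟨i, rfl, rfl⟩ ⟨j, rfl, rfl⟩
    obtain ⟨k, hk⟩ := he2 s i j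
    exact ⟨k, hk.symm, ((g3 i j k).1 hk).symm⟩
  · intro a
    obtain ⟨i, hi⟩ := he1 s a
    exact ⟨i, hi, (g4 a i).1 hi⟩

end Run7.h104.WO
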