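import Pool.Agent.Run7.h520.WO.I

/-! Piece GEN: the generic structure on `ℕ` from the one-point extensions. -/

set_option autoImplicit false

namespace Run7.h104.WO
open Run7.h520.WO

def A0 (S S' : St) (n a : ℕ) : Prop :=
  S'.lt a n ∧ ∀ c < n, ¬ S'.E c n ∧ (S.lt a c → ¬ S.E a c → S'.lt n c)
def A1 (S S' : St) (n a : ℕ) : Prop :=
  S'.lt n a ∧ ∀ c < n, ¬ S'.E c n ∧ (S.lt c a → ¬ S.E a c → S'.lt c n)
def A2 (S S' : St) (n a y : ℕ) : Prop :=
  S'.E a n ∧ S'.lt a n ∧ S'.d a n = y ∧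
    ∀ c < n, S.E a c → S.lt a c → S.d a c = y → S'.lt n c ∧ S'.d n c = y
def A3 (S S' : St) (n a y : ℕ) : Prop :=
  S'.E a n ∧ S'.lt n a ∧ S'.d a n = y ∧
    ∀ c < n, S.E a c → S.lt c a → S.d a c = y → S'.lt c n ∧ S'.d n c = y

def Sol (k a y : ℕ) (S S' : St) (n : ℕ) : Prop :=
  (k = 0 → a < n → A0 S S' n a) ∧ (k = 1 → a < n → A1 S S' n a) ∧
  (k = 2 → a < n → y < n → S.lt y a → ¬ S.E y a → A2 S S' n a y) ∧
  (k = 3 → a < n → y < n → S.lt y a → ¬ S.E y a → A3 S S' n a y)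

theorem step (h1 : S_G1) (h2 : S_G2) (S : St) (n k a y : ℕ) (hn : 1 ≤ n) (hS : Ok S n) :
    ∃ S', Ok S' (n + 1) ∧ Agr S S' n ∧ Sol k a y S S' n := by
  by_cases c0 : k = 0 ∧ a < n
  · obtain ⟨⟨S', g1, g2, g3, g4⟩, -⟩ := h1 S n hS a c0.2
    exact ⟨S', g1, g2, fun _ _ => ⟨g3, g4⟩, fun h => absurd h (by omega), fun h => absurd h (by omega),
      fun h => absurd h (by omega)⟩
  by_cases c1 : k = 1 ∧ a < n
  · obtain ⟨-, ⟨S', g1, g2, g3, g4⟩⟩ := h1 S n hS a c1.2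
    exact ⟨S', g1, g2, fun h => absurd h (by omega), fun _ _ => ⟨g3, g4⟩, fun h => absurd h (by omega),
      fun h => absurd h (by omega)⟩
  by_cases c2 : k = 2 ∧ a < n ∧ y < n ∧ S.lt y a ∧ ¬ S.E y a
  · obtain ⟨⟨S', g1, g2, g3⟩, -⟩ := h2 S n hS a c2.2.1 y c2.2.2.1 c2.2.2.2.1 c2.2.2.2.2
    exact ⟨S', g1, g2, fun h => absurd h (by omega), fun h => absurd h (by omega),
      fun _ _ _ _ _ => g3, fun h => absurd h (by omega)⟩
  by_cases c3 : k = 3 ∧ a < n ∧ y < n ∧ S.lt y a ∧ ¬ S.E y a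
  · obtain ⟨-, ⟨S', g1, g2, g3⟩⟩ := h2 S n hS a c3.2.1 y c3.2.2.1 c3.2.2.2.1 c3.2.2.2.2
    exact ⟨S', g1, g2, fun h => absurd h (by omega), fun h => absurd h (by omega),
      fun h => absurd h (by omega), fun _ _ _ _ _ => g3⟩
  obtain ⟨⟨S', g1, g2, g3, g4⟩, -⟩ := h1 S n hS 0 (by omega)
  exact ⟨S', g1, g2, fun h h' => absurd ⟨h, h'⟩ c0, fun h h' => absurd ⟨h, h'⟩ c1,
    fun a1 a2 a3 a4 a5 => absurd ⟨a1, a2, a3, a4, a5⟩ c2,
    fun a1 a2 a3 a4 a5 => absurd ⟨a1, a2, a3, a4, a5⟩ c3⟩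

theorem agr_trans {S S' S'' : St} {n m : ℕ} (h : Agr S S' n) (h' : Agr S' S'' m) (hnm : n ≤ m) :
    Agr S S'' n := by
  intro x hx y hy
  obtain ⟨a1, a2, a3⟩ := h x hx y hy
  obtain ⟨b1, b2, b3⟩ := h' x (by omega) y (by omega)
  exact ⟨b1.trans a1, b2.trans a2, b3.trans a3⟩

theorem ok_congr {S S' : St} {n : ℕ} (h : Agr S S' n) (hS : Ok S n) : Ok S' n := by
  have hl : ∀ x < n, ∀ y < n, (S'.lt x y ↔ S.lt x y) := fun x hx y hy => (h x hx y hy).1
  have hE : ∀ x < n, ∀ y < n, (S'.E x y ↔ S.E x y) := fun x hx y hy => (h x hx y hy).2.1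
  have hd : ∀ x < n, ∀ y < n, S'.d x y = S.d x y := fun x hx y hy => (h x hx y hy).2.2
  refine ⟨?_, ?_, ?_, ?_, ?_, ?_, ?_, ?_, ?_, ?_, ?_, ?_⟩
  · intro x hx; rw [hl x hx x hx]; exact hS.irr x hx
  · intro x hx y hy z hz; rw [hl x hx y hy, hl y hy z hz, hl x hx z hz]; exact hS.tra x hx y hy z hz
  · intro x hx y hy; rw [hl x hx y hy, hl y hy x hx]; exact hS.tot x hx y hy
  · intro x hx; rw [hE x hx x hx]; exact hS.rf x hx
  · intro x hx y hy; rw [hE x hx y hy, hE y hy x hx]; exact hS.sm x hx y hy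
  · intro x hx y hy z hz; rw [hE x hx y hy, hE y hy z hz, hE x hx z hz]; exact hS.tr x hx y hy z hz
  · intro x hx y hy z hz; rw [hl x hx y hy, hl y hy z hz, hE x hx z hz, hE x hx y hy]
    exact hS.cv x hx y hy z hz
  · intro x hx y hy; rw [hd x hx y hy]; exact hS.dn x hx y hy
  · intro x hx y hy; rw [hd x hx y hy, hd y hy x hx, hE x hx y hy]; exact hS.ds x hx y hy
  · intro x hx y hy; rw [hd x hx y hy, hE x hx y hy, hl _ (hS.dn x hx y hy) x hx,
      hE _ (hS.dn x hx y hy) x hx]; exact hS.dl x hx y hy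
  · intro x hx y hy z hz; rw [hl x hx y hy, hl y hy z hz, hE x hx z hz, hd x hx y hy, hd y hy z hz,
      hd x hx z hz]
    intro a b c
    have := hS.dm x hx y hy z hz a b c
    unfold St.mx at this ⊢
    rw [hl _ (hS.dn y hy z hz) _ (hS.dn x hx y hy), hl _ (hS.dn x hx y hy) _ (hS.dn y hy z hz)]
    exact this
  · intro x hx y hy; rw [hd x hx y hy, hE x hx y hy]; exact hS.dj x hx y hy

/-- one point -/
def S0 : St := ⟨fun _ _ => False, fun _ _ => True, fun x _ => x⟩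

theorem ok0 : Ok S0 1 := by
  refine ⟨?_, ?_, ?_, ?_, ?_, ?_, ?_, ?_, ?_, ?_, ?_, ?_⟩
  · intro x _ h; exact h
  · intro _ _ _ _ _ _ h; exact h.elim
  · intro x hx y hy; right; left; omega
  · intro _ _; trivial
  · intro _ _ _ _ _; trivial
  · intro _ _ _ _ _ _ _ _; trivial
  · intro _ _ _ _ _ _ h; exact h.elim
  · intro x hx y hy; exact hx
  · intro x hx y hy _; change x = y; omega
  · intro x hx y hy _ h; omega
  · intro _ _ _ _ _ _ h; exact h.elim
  · intro _ _ _ _ _; rfl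

/-- The limit structure. -/
theorem lim (h1 : S_G1) (h2 : S_G2) : ∃ L : St, (∀ N, Ok L (N + 1)) ∧
    ∀ k a y N : ℕ, ∃ n, N < n ∧ Sol k a y L L n := by
  have step' : ∀ (S : St) (n : ℕ), ∃ S', Ok S (n + 1) → Ok S' (n + 2) ∧ Agr S S' (n + 1) ∧
      Sol (Nat.unpair (Nat.unpair n).1).1 (Nat.unpair (Nat.unpair (Nat.unpair n).1).2).1
        (Nat.unpair (Nat.unpair (Nat.unpair n).1).2).2 S S' (n + 1) := by
    intro S n
    by_cases h : Ok S (n + 1)
    · obtain ⟨S', g1, g2, g3⟩ := step h1 h2 S (n + 1) (Nat.unpair (Nat.unpair n).1).1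
        (Nat.unpair (Nat.unpair (Nat.unpair n).1).2).1
        (Nat.unpair (Nat.unpair (Nat.unpair n).1).2).2 (by omega) h
      exact ⟨S', fun _ => ⟨g1, g2, g3⟩⟩
    · exact ⟨S, fun h' => absurd h' h⟩
  choose f hf using step'
  let T : ℕ → St := fun n => Nat.rec S0 (fun n S => f S n) n
  have hT : ∀ n, Ok (T n) (n + 1) := by
    intro n
    induction n with
    | zero => exact ok0
    | succ n ih => exact (hf (T n) n ih).1
  have hA1 : ∀ n, Agr (T n) (T (n + 1)) (n + 1) := fun n => (hf (T n) n (hT n)).2.1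
  have hA : ∀ n N, n ≤ N → Agr (T n) (T N) (n + 1) := by
    intro n N h
    induction N, h using Nat.le_induction with
    | base => exact fun x _ y _ => ⟨Iff.rfl, Iff.rfl, rfl⟩
    | succ N hN ih => exact agr_trans ih (hA1 N) (by omega)
  let L : St := ⟨fun i j => (T (max i j)).lt i j, fun i j => (T (max i j)).E i j,
    fun i j => (T (max i j)).d i j⟩
  have hL : ∀ N, Agr (T N) L (N + 1) := by
    intro N x hx y hy
    obtain ⟨a1, a2, a3⟩ := hA (max x y) N (by omega) x (by omega) y (by omega)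
    exact ⟨a1.symm, a2.symm, a3.symm⟩
  refine ⟨L, fun N => ok_congr (hL N) (hT N), ?_⟩
  intro k a y N
  set n := Nat.pair (Nat.pair k (Nat.pair a y)) N with hn
  have hNn : N ≤ n := Nat.right_le_pair _ _
  have hs := (hf (T n) n (hT n)).2.2
  simp only [hn, Nat.unpair_pair] at hs
  rw [← hn] at hs
  have e1 : ∀ x < n + 1, ∀ y < n + 1, ((T n).lt x y ↔ L.lt x y) :=
    fun x hx y hy => ((hL n) x hx y hy).1.symm
  have e2 : ∀ x < n + 1, ∀ y < n + 1, ((T n).E x y ↔ L.E x y) :=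
    fun x hx y hy => ((hL n) x hx y hy).2.1.symm
  have e3 : ∀ x < n + 1, ∀ y < n + 1, ((T n).d x y = L.d x y) :=
    fun x hx y hy => ((hL n) x hx y hy).2.2.symm
  have e4 : ∀ x < n + 2, ∀ y < n + 2, ((f (T n) n).lt x y ↔ L.lt x y) :=
    fun x hx y hy => ((hL (n + 1)) x hx y hy).1.symm
  have e5 : ∀ x < n + 2, ∀ y < n + 2, ((f (T n) n).E x y ↔ L.E x y) :=
    fun x hx y hy => ((hL (n + 1)) x hx y hy).2.1.symm
  have e6 : ∀ x < n + 2, ∀ y < n + 2, ((f (T n) n).d x y = L.d x y) :=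
    fun x hx y hy => ((hL (n + 1)) x hx y hy).2.2.symm
  refine ⟨n + 1, by omega, ?_⟩
  obtain ⟨s0, s1, s2, s3⟩ := hs
  refine ⟨fun hk ha => ?_, fun hk ha => ?_, fun hk ha hy h h' => ?_, fun hk ha hy h h' => ?_⟩
  · obtain ⟨b1, b2⟩ := s0 hk ha
    refine ⟨(e4 a (by omega) (n + 1) (by omega)).1 b1, fun c hc => ?_⟩
    obtain ⟨b3, b4⟩ := b2 c hc
    refine ⟨fun q => b3 ((e5 c (by omega) (n + 1) (by omega)).2 q), fun q q' => ?_⟩
    exact (e4 (n + 1) (by omega) c (by omega)).1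
      (b4 ((e1 a ha c hc).2 q) (fun r => q' ((e2 a ha c hc).1 r)))
  · obtain ⟨b1, b2⟩ := s1 hk ha
    refine ⟨(e4 (n + 1) (by omega) a (by omega)).1 b1, fun c hc => ?_⟩
    obtain ⟨b3, b4⟩ := b2 c hc
    refine ⟨fun q => b3 ((e5 c (by omega) (n + 1) (by omega)).2 q), fun q q' => ?_⟩
    exact (e4 c (by omega) (n + 1) (by omega)).1
      (b4 ((e1 c hc a ha).2 q) (fun r => q' ((e2 a ha c hc).1 r)))
  · obtain ⟨b1, b2, b3, b4⟩ := s2 hk ha hy ((e1 y hy a ha).2 h) (fun r => h' ((e2 y hy a ha).1 r))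
    refine ⟨(e5 a (by omega) (n + 1) (by omega)).1 b1, (e4 a (by omega) (n + 1) (by omega)).1 b2,
      ((e6 a (by omega) (n + 1) (by omega)).symm.trans b3), fun c hc q1 q2 q3 => ?_⟩
    obtain ⟨b5, b6⟩ := b4 c hc ((e2 a ha c hc).2 q1) ((e1 a ha c hc).2 q2)
      ((e3 a ha c hc).trans q3)
    exact ⟨(e4 (n + 1) (by omega) c (by omega)).1 b5, (e6 (n + 1) (by omega) c (by omega)).symm.trans b6⟩
  · obtain ⟨b1, b2, b3, b4⟩ := s3 hk ha hy ((e1 y hy a ha).2 h) (fun r => h' ((e2 y hy a ha).1 r))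
    refine ⟨(e5 a (by omega) (n + 1) (by omega)).1 b1, (e4 (n + 1) (by omega) a (by omega)).1 b2,
      ((e6 a (by omega) (n + 1) (by omega)).symm.trans b3), fun c hc q1 q2 q3 => ?_⟩
    obtain ⟨b5, b6⟩ := b4 c hc ((e2 a ha c hc).2 q1) ((e1 c hc a ha).2 q2)
      ((e3 a ha c hc).trans q3)
    exact ⟨(e4 c (by omega) (n + 1) (by omega)).1 b5, (e6 (n + 1) (by omega) c (by omega)).symm.trans b6⟩

/-- A copy of `ℕ`. -/
structure GM : Type where
  /-- the number -/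
  v : ℕ

theorem GM.ext' {x y : GM} (h : x.v = y.v) : x = y := by cases x; cases y; simp_all

theorem gen : S_GEN := by
  intro h1 h2
  classical
  obtain ⟨L, hok, hsol⟩ := lim h1 h2
  have irr : ∀ x, ¬ L.lt x x := fun x => (hok x).irr x (by omega)
  have tra : ∀ x y z, L.lt x y → L.lt y z → L.lt x z := fun x y z =>
    (hok (x + y + z)).tra x (by omega) y (by omega) z (by omega)
  have tot : ∀ x y, L.lt x y ∨ x = y ∨ L.lt y x := fun x y =>
    (hok (x + y)).tot x (by omega) y (by omega)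
  let r : GM → GM → Prop := fun x y => L.lt x.v y.v
  have : IsStrictTotalOrder GM r :=
    { trichotomous := fun x y a b => by
        rcases tot x.v y.v with h | h | h
        · exact absurd h a
        · exact GM.ext' h
        · exact absurd h b
      irrefl := fun x => irr x.v
      trans := fun x y z => tra x.v y.v z.v }
  let inst : LinearOrder GM := linearOrderOfSTO r
  have hlt : ∀ x y : GM, (x < y ↔ L.lt x.v y.v) := fun x y => Iff.rfl
  let E : GM → GM → Prop := fun x y => L.E x.v y.v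
  let d : GM → GM → GM := fun x y => ⟨L.d x.v y.v⟩
  refine ⟨GM, inst, E, d, ?_, ⟨⟨0⟩⟩, ?_, ?_⟩
  · exact Function.Injective.countable (f := GM.v) (fun x y h => GM.ext' h)
  · refine ⟨?_, ?_, ?_, ?_, ?_, ?_, ?_, ?_⟩
    · intro x; exact (hok x.v).rf x.v (by omega)
    · intro x y; exact (hok (x.v + y.v)).sm x.v (by omega) y.v (by omega)
    · intro x y z; exact (hok (x.v + y.v + z.v)).tr x.v (by omega) y.v (by omega) z.v (by omega)
    · intro x y z; exact (hok (x.v + y.v + z.v)).cv x.v (by omega) y.v (by omega) z.v (by omega)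
    · intro x y h
      exact GM.ext' ((hok (x.v + y.v)).ds x.v (by omega) y.v (by omega) h)
    · intro x y h hne
      exact (hok (x.v + y.v)).dl x.v (by omega) y.v (by omega) h (fun e => hne (GM.ext' e))
    · intro x y z hxy hyz hE
      have := (hok (x.v + y.v + z.v)).dm x.v (by omega) y.v (by omega) z.v (by omega) hxy hyz hE
      unfold St.mx at this
      rcases this with ⟨e, e'⟩ | ⟨e, e'⟩
      · have hle : d y z ≤ d x y := by
          rcases e' with e' | e'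
          · exact le_of_eq (GM.ext' e')
          · exact le_of_lt ((hlt _ _).2 e')
        rw [max_eq_left hle]
        exact GM.ext' e
      · have hle : d x y ≤ d y z := by
          rcases e' with e' | e'
          · exact le_of_eq (GM.ext' e')
          · exact le_of_lt ((hlt _ _).2 e')
        rw [max_eq_right hle]
        exact GM.ext' e
    · intro x y h
      refine GM.ext' ((hok (x.v + y.v)).dj x.v (by omega) y.v (by omega) ?_)
      rcases h with h | h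
      · exact Or.inl h
      · exact Or.inr (by rw [h])
  · have bd : ∀ A : Finset GM, ∃ N, ∀ c ∈ A, c.v ≤ N := by
      intro A
      exact ⟨A.sup GM.v, fun c hc => Finset.le_sup (f := GM.v) hc⟩
    refine ⟨?_, ?_, ?_, ?_⟩
    · intro A a
      obtain ⟨N, hN⟩ := bd A
      obtain ⟨n, hn, s0, -, -, -⟩ := hsol 0 a.v 0 (N + a.v)
      obtain ⟨b1, b2⟩ := s0 rfl (by omega)
      refine ⟨⟨n⟩, b1, (b2 a.v (by omega)).1, fun c hc => ?_⟩
      have := hN c hc
      exact b2 c.v (by omega)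
    · intro A a
      obtain ⟨N, hN⟩ := bd A
      obtain ⟨n, hn, -, s1, -, -⟩ := hsol 1 a.v 0 (N + a.v)
      obtain ⟨b1, b2⟩ := s1 rfl (by omega)
      refine ⟨⟨n⟩, b1, (b2 a.v (by omega)).1, fun c hc => ?_⟩
      have := hN c hc
      exact b2 c.v (by omega)
    · intro A a y hya hEya
      obtain ⟨N, hN⟩ := bd A
      obtain ⟨n, hn, -, -, s2, -⟩ := hsol 2 a.v y.v (N + a.v + y.v)
      obtain ⟨b1, b2, b3, b4⟩ := s2 rfl (by omega) (by omega) hya hEya
      refine ⟨⟨n⟩, b1, b2, GM.ext' b3, fun c hc q1 q2 q3 => ?_⟩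
      have := hN c hc
      obtain ⟨b5, b6⟩ := b4 c.v (by omega) q1 q2 (congrArg GM.v q3)
      exact ⟨b5, GM.ext' b6⟩
    · intro A a y hya hEya
      obtain ⟨N, hN⟩ := bd A
      obtain ⟨n, hn, -, -, -, s3⟩ := hsol 3 a.v y.v (N + a.v + y.v)
      obtain ⟨b1, b2, b3, b4⟩ := s3 rfl (by omega) (by omega) hya hEya
      refine ⟨⟨n⟩, b1, b2, GM.ext' b3, fun c hc q1 q2 q3 => ?_⟩
      have := hN c hc
      obtain ⟨b5, b6⟩ := b4 c.v (by omega) q1 q2 (congrArg GM.v q3)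
      exact ⟨b5, GM.ext' b6⟩

end Run7.h104.WO
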